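import Pool.Agent.Helper91.IP.L7

/-!
# The interchange process mixes in time `C t_rel log n`

For every finite connected graph `G` on `n ≥ 2` vertices, the interchange process on `G` has
total variation mixing time at most `C t_rel(G) log n`, where `t_rel(G)` is the relaxation time
of the random walk on `G` and `C` is an absolute constant.  In particular it is at most
`C t_mix^{SRW}(G) log n`.

Sketch of the proof (the pieces are in `Pool/Agent/Helper91/IP` and in the files imported there;
many hands).
* A new short proof of the octopus inequality through the alternating group on five points.  It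
  gives `A_{P * P} ≤ 2 A_P` for symmetric stochastic `P`, hence by doubling
  `A_{e^{-tL}} ≤ t A_L`, and with `t ≍ t_rel` a comparison with a smooth kernel.
* Functions of level `j` (sums of functions of the positions of `j` labels, orthogonal to those
  of level `j - 1`) have energy at least `(γ / 40) j` for `j ≤ n - n / 4`, and comparison with the
  complete graph together with an elementary bound on Jucys-Murphy elements gives
  `γ j / (4 log (2n))` for all levels.
* A bound on the full trace of the heat kernel at time `C t_rel log n`: for `n / 4` labels the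
  trace on the functions of the other labels is bounded by the level estimate, and the average of
  the commutators of the permutations of `m` labels is a central, positive operator whose trace is
  at most the number of partitions of `m` times the previous one; four disjoint blocks of labels
  suffice to dominate the trace on every irreducible representation.
* The trace of the heat kernel bounds the `L²` distance to equilibrium.
-/

namespace Pool.Agent.Results.MP_e2dfad_pr.InterchangeMixing

open Finset Equiv Matrix Pool.Agent.Helper91.IP

/-- There is an absolute constant `C` such that for every finite connected graph `G` on `n ≥ 2`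
vertices the interchange process on `G` is within total variation distance `1/4` of uniform from
every starting state at every time `t ≥ C t_rel log n`, where `t_rel` is the relaxation time of
the random walk on `G`; so `t_mix^{IP} ≤ C t_rel log n`, and `t_mix^{IP} ≤ C t_mix^{SRW} log n`. -/
theorem result : ∃ C : ℝ, 0 < C ∧ ∀ (V : Type) [Fintype V] [DecidableEq V] (G : SimpleGraph V)
    [DecidableRel G.Adj], G.Connected → 2 ≤ Fintype.card V →
    (∀ t : ℝ, C * trel (srw G) * Real.log (Fintype.card V) ≤ t → ∀ σ, tv (ip G) t σ ≤ 1 / 4) ∧
    tmix (ip G) ≤ C * trel (srw G) * Real.log (Fintype.card V) ∧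
    tmix (ip G) ≤ C * tmix (srw G) * Real.log (Fintype.card V) := by
  obtain ⟨C0, hC0, hmain⟩ := trace_final
  have hlog2 : 0 < Real.log 2 := Real.log_pos (by norm_num)
  have hlog2' : Real.log 2 ≤ 1 := by
    have := Real.log_le_sub_one_of_pos (show (0 : ℝ) < 2 by norm_num)
    linarith
  have h3 : C0 ≤ C0 / Real.log 2 := by
    rw [le_div_iff₀ hlog2]
    nlinarith
  refine ⟨C0 / Real.log 2, div_pos hC0 hlog2, ?_⟩
  intro V _ _ G _ hG hn
  obtain ⟨hgap, _⟩ := gap_srw G hG hn
  set γ := gapR (srw G) with hγ
  have hγpos : 0 < γ := hgap.pos
  have hn1 : (1 : ℝ) ≤ (Fintype.card V : ℝ) := by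
    have : 1 ≤ Fintype.card V := by omega
    exact_mod_cast this
  have hlog : 0 ≤ Real.log (Fintype.card V) := Real.log_nonneg hn1
  have htrel : trel (srw G) = 1 / γ := rfl
  have key : ∀ t : ℝ, C0 * (1 / γ) * Real.log (Fintype.card V) ≤ t →
      0 ≤ t ∧ ∀ σ, tv (ip G) t σ ≤ 1 / 4 := by
    intro t ht
    have ht0 : 0 ≤ t := le_trans (by positivity) ht
    have htr := hmain V (srw G) γ hgap hn t ht
    refine ⟨ht0, fun σ => ?_⟩
    obtain ⟨e, he⟩ := ker_ip G t
    have h1 : tv (ip G) t σ = (1 / 2) * ∑ s', |Kt (srw G) t (e σ) s' -
        1 / (Nat.factorial (Fintype.card V) : ℝ)| := by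
      unfold tv
      congr 1
      rw [← Equiv.sum_comp e]
      refine sum_congr rfl fun σ' _ => ?_
      rw [he σ σ', Fintype.card_equiv (Fintype.equivFin V)]
    rw [h1]
    refine (tv_Kt (srw G) hgap.nonneg ht0 (e σ)).trans ?_
    have h2 : Real.sqrt (trace (Kt (srw G) (2 * t)) - 1) ≤ Real.sqrt ((1 / 2) ^ 2) :=
      Real.sqrt_le_sqrt (by norm_num; linarith)
    rw [Real.sqrt_sq (by norm_num)] at h2
    linarith
  have h4 : 0 ≤ 1 / γ * Real.log (Fintype.card V) := by positivity
  have h5 : C0 * (1 / γ) * Real.log (Fintype.card V) ≤
      C0 / Real.log 2 * trel (srw G) * Real.log (Fintype.card V) := by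
    rw [htrel]
    calc C0 * (1 / γ) * Real.log (Fintype.card V)
        = C0 * (1 / γ * Real.log (Fintype.card V)) := by ring
      _ ≤ C0 / Real.log 2 * (1 / γ * Real.log (Fintype.card V)) :=
        mul_le_mul_of_nonneg_right h3 h4
      _ = C0 / Real.log 2 * (1 / γ) * Real.log (Fintype.card V) := by ring
  have key2 : tmix (ip G) ≤ C0 * (1 / γ) * Real.log (Fintype.card V) :=
    csInf_le ⟨0, fun t ht => ht.1⟩ (key _ le_rfl)
  refine ⟨fun t ht => (key t (h5.trans ht)).2, key2.trans h5, key2.trans ?_⟩
  have h6 := trel_le_tmix G hG hn
  rw [htrel] at h6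
  have h7 : 1 / γ ≤ tmix (srw G) / Real.log 2 := by
    rw [le_div_iff₀ hlog2]
    exact h6
  have h8 : 0 ≤ C0 * Real.log (Fintype.card V) := by positivity
  calc C0 * (1 / γ) * Real.log (Fintype.card V)
      = C0 * Real.log (Fintype.card V) * (1 / γ) := by ring
    _ ≤ C0 * Real.log (Fintype.card V) * (tmix (srw G) / Real.log 2) :=
      mul_le_mul_of_nonneg_left h7 h8
    _ = C0 / Real.log 2 * tmix (srw G) * Real.log (Fintype.card V) := by ring

end Pool.Agent.Results.MP_e2dfad_pr.InterchangeMixing
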